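import Mathlib
import Pool.Agent.N772.SC.Main

/-!
# Lehmer's inequality for `X ^ N A + B` with a long shift

Let `A`, `B` be integer polynomials with `|B| ≤ H |A|` on the unit circle and
`deg B ≤ deg (X ^ N A) - g`, and let `k` be the number of zeros of `A` outside the closed unit disc.
If `g ≥ 250 k (k + log H)` then `M(X ^ N A + B) ≥ 0.93 M(A)`, and hence `M(X ^ N A + B) ≥ 1.19` when
`A` is not reciprocal up to sign.  With `B = ± A^*` this is Salem's construction, with a length of
the shift that depends on nothing but the number of outer zeros of `A`.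
-/

set_option autoImplicit false

open Polynomial

namespace Pool.Agent.Results.MP_dc0c68_nt.LongShifts

open Classical in
/-- the number of complex zeros of `A` of modulus greater than one, with multiplicity -/
noncomputable def outerZeros (A : ℤ[X]) : ℕ :=
  ((A.map (Int.castRingHom ℂ)).roots.filter fun z => 1 < ‖z‖).card

theorem result (A B : ℤ[X]) (N g : ℕ) (H : ℝ) (hA : A ≠ 0) (hg1 : 1 ≤ g) (hH : 1 ≤ H)
    (hdeg : B.natDegree + g ≤ N + A.natDegree)
    (hB : ∀ z : ℂ, ‖z‖ = 1 → ‖aeval z B‖ ≤ H * ‖aeval z A‖)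
    (hg : 250 * (outerZeros A : ℝ) * (outerZeros A + Real.log H) ≤ g) :
    93 / 100 * (A.map (Int.castRingHom ℂ)).mahlerMeasure ≤
        ((X ^ N * A + B).map (Int.castRingHom ℂ)).mahlerMeasure ∧
      (A.coeff 0 ≠ 0 → A.reverse ≠ A → A.reverse ≠ -A →
        119 / 100 ≤ ((X ^ N * A + B).map (Int.castRingHom ℂ)).mahlerMeasure) := by
  have h1 := Pool.Agent.N772.SC.main_int A B N g H hH hg1 hA hdeg hB hg
  refine ⟨h1, fun h2 h3 h4 => ?_⟩
  have h5 := Pool.Agent.N772.SC.smyth A h2 h3 h4
  linarith

end Pool.Agent.Results.MP_dc0c68_nt.LongShifts
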