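import Mathlib
import Pool.Prelude.Def_F_c31e40fa
import Pool.Agent.N772.TC.Oth

/-!
# The exponents of the superattracting parameters of exact period `n`

Let `d ≥ 2` and let `C_n` be the set of the superattracting parameters `c` of exact period `n` of
`z ^ d + c` (about `d ^ (n - 1)` parameters). To `c` belong four exponents: the Lyapunov exponent of
the orbit of the critical value up to its return to the critical point, the exponential rate of the
derivative `d/dc f_c ^ n (0)`, and the exponential rates of the distances to the other solutions of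
`f ^ n (0) = 0` and to the other parameters of `C_n`.

* They are close to `χ` if `c` is close to a parameter `c₀` with the Lyapunov exponent `χ > 0`.
* They are close to `log d` for most `c` in `C_n`, and converge to `log d` in the mean of every order.
* So the discriminants of the polynomials `f ^ n (0)` in `c` satisfy `log |disc| ∼ N log N`,
  `N = d ^ (n - 1)` the degree.

The proofs use the transfer principle of `MostComponents`, the size law of `ScalingLaw` (lower bounds
of the derivatives: otherwise the hyperbolic components would be too large), and the bounds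
`Pool/Agent/R240/{Trans,Sep}.lean` of the starting library, valid at all superattracting parameters.
-/

set_option autoImplicit false

open MeasureTheory Filter Metric Topology

namespace Pool.Agent.Results.MP_af9036_an.LyapunovOfCentres

/-- The polynomial `z ^ d + c`. -/
def f (d : ℕ) (c : ℂ) : ℂ → ℂ := fun z => z ^ d + c

/-- The superattracting parameters of exact period `n`: the critical point `0` of `z ^ d + c` is
periodic with least period `n`. -/
def centres (d n : ℕ) : Set ℂ := {c | Function.minimalPeriod (f d c) 0 = n}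

/-- The critical orbit as a function of the parameter. -/
def crit (d n : ℕ) (c : ℂ) : ℂ := (f d c)^[n] 0

/-- The critical orbit as polynomials with integer coefficients in the parameter. -/
noncomputable def poly (d : ℕ) : ℕ → Polynomial ℤ
  | 0 => 0
  | n + 1 => poly d n ^ d + Polynomial.X

/-- The Lyapunov exponent of the orbit of the critical value up to its return to `0`. -/
noncomputable def dynExp (d n : ℕ) (c : ℂ) : ℝ := Real.log ‖deriv ((f d c)^[n - 1]) c‖ / n

/-- The exponent of the derivative with respect to the parameter. -/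
noncomputable def parExp (d n : ℕ) (c : ℂ) : ℝ := Real.log ‖deriv (crit d n) c‖ / n

/-- The exponent of the distance to the other parameters with `f ^ n (0) = 0`. -/
noncomputable def gapExp (d n : ℕ) (c : ℂ) : ℝ :=
  -Real.log (infDist c ({b | crit d n b = 0} \ {c})) / n

/-- The exponent of the distance to the other superattracting parameters of exact period `n`. -/
noncomputable def gapExp' (d n : ℕ) (c : ℂ) : ℝ :=
  -Real.log (infDist c (centres d n \ {c})) / n

/-- The largest deviation of the four exponents from `χ`. -/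
noncomputable def dev (d : ℕ) (χ : ℝ) (n : ℕ) (c : ℂ) : ℝ :=
  max (max |dynExp d n c - χ| |parExp d n c - χ|) (max |gapExp d n c - χ| |gapExp' d n c - χ|)

/-- The mean value of `x` over the superattracting parameters of exact period `n`. -/
noncomputable def mean (d n : ℕ) (x : ℂ → ℝ) : ℝ :=
  (∑ᶠ c ∈ centres d n, x c) / (centres d n).ncard

open Pool.Agent.N772.TC

theorem log_near {x χ ε n : ℝ} (hn : 0 < n) (h1 : Real.exp ((χ - ε) * n) ≤ x)
    (h2 : x ≤ Real.exp ((χ + ε) * n)) : |Real.log x / n - χ| ≤ ε := by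
  have hx : 0 < x := (Real.exp_pos _).trans_le h1
  rw [abs_le]
  constructor
  · have : χ - ε ≤ Real.log x / n := by
      rw [le_div_iff₀ hn]
      exact (Real.le_log_iff_exp_le hx).2 h1
    linarith
  · have : Real.log x / n ≤ χ + ε := by
      rw [div_le_iff₀ hn]
      exact (Real.log_le_iff_le_exp hx).2 h2
    linarith

theorem log_near' {x χ ε n : ℝ} (hn : 0 < n) (h1 : Real.exp (-((χ + ε) * n)) ≤ x)
    (h2 : x ≤ Real.exp (-((χ - ε) * n))) : |-Real.log x / n - χ| ≤ ε := by
  have hx : 0 < x := (Real.exp_pos _).trans_le h1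
  have h3 := (Real.le_log_iff_exp_le hx).2 h1
  have h4 := (Real.log_le_iff_le_exp hx).2 h2
  rw [abs_le]
  constructor
  · have : χ - ε ≤ -Real.log x / n := by
      rw [le_div_iff₀ hn]
      linarith
    linarith
  · have : -Real.log x / n ≤ χ + ε := by
      rw [div_le_iff₀ hn]
      linarith
    linarith

/-- near a parameter with a Lyapunov exponent -/
theorem near {d : ℕ} (hd : 2 ≤ d) {χ : ℝ} {c₀ : ℂ} (h : Pool.Agent.Y298.CA.Lyap d χ c₀) {ε : ℝ}
    (hε : 0 < ε) : ∃ δ : ℝ, 0 < δ ∧ ∀ᶠ n : ℕ in atTop, ∀ c ∈ centres d n,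
      ‖c - c₀‖ ≤ Real.exp (-((χ - δ) * n)) → dev d χ n c ≤ ε := by
  have hχ := h.1
  obtain ⟨δ₁, hδ₁, H₁⟩ := der_law hd h hε
  obtain ⟨e, he⟩ : ∃ e, e = min ε χ := ⟨_, rfl⟩
  have he0 : 0 < e := by rw [he]; exact lt_min hε hχ
  have heε : e ≤ ε := by rw [he]; exact min_le_left _ _
  obtain ⟨δ₂, hδ₂, H₂⟩ := near_other hd h he0 (by rw [he]; exact min_le_right _ _)
  refine ⟨min δ₁ δ₂, lt_min hδ₁ hδ₂, ?_⟩
  filter_upwards [H₁, H₂, eventually_ge_atTop 1] with n hn1 hn2 hn c hc hcc
  have hn0 : (0 : ℝ) < n := by exact_mod_cast hn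
  have hP : Pool.Agent.H712R2.P d n c = 0 := Pool.Agent.N896.MB.per_zero hc
  obtain ⟨⟨a1, a2⟩, ⟨a3, a4⟩, a5⟩ := hn1 c hP (hcc.trans (Real.exp_le_exp.2 (by
    have : (χ - δ₁) * n ≤ (χ - min δ₁ δ₂) * n := by
      gcongr
      exact min_le_left _ _
    linarith)))
  obtain ⟨b, hb, hbc, hbd⟩ := hn2 c (hcc.trans (Real.exp_le_exp.2 (by
    have : (χ - δ₂) * n ≤ (χ - min δ₁ δ₂) * n := by
      gcongr
      exact min_le_right _ _
    linarith)))
  have hbd' : ‖b - c‖ ≤ Real.exp (-((χ - ε) * n)) := by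
    refine hbd.trans (Real.exp_le_exp.2 ?_)
    have : (χ - ε) * n ≤ (χ - e) * n := by gcongr
    linarith
  have hbP : crit d n b = 0 := Pool.Agent.N896.MB.per_zero hb
  have hfin : ({b | crit d n b = 0} \ {c} : Set ℂ).Finite :=
    (Pool.Agent.N896.MB.cen_all hd hn).subset Set.sdiff_subset
  have hfin' : (centres d n \ {c} : Set ℂ).Finite :=
    (Cn_fin hd hn).subset Set.sdiff_subset
  have hmem : b ∈ ({b | crit d n b = 0} \ {c} : Set ℂ) := ⟨hbP, hbc⟩
  have hmem' : b ∈ (centres d n \ {c} : Set ℂ) := ⟨hb, hbc⟩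
  refine max_le (max_le ?_ ?_) (max_le ?_ ?_)
  · exact log_near hn0 a1 a2
  · exact log_near hn0 a3 a4
  · apply log_near' hn0
    · obtain ⟨x, hx, hx2⟩ := infDist_fin hfin ⟨b, hmem⟩ c
      rw [hx2]
      exact a5 x hx.1 hx.2
    · refine (infDist_le_dist_of_mem hmem).trans ?_
      rw [dist_comm, dist_eq_norm]
      exact hbd'
  · apply log_near' hn0
    · obtain ⟨x, hx, hx2⟩ := infDist_fin hfin' ⟨b, hmem'⟩ c
      rw [hx2]
      exact a5 x (Pool.Agent.N896.MB.per_zero hx.1) hx.2
    · refine (infDist_le_dist_of_mem hmem').trans ?_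
      rw [dist_comm, dist_eq_norm]
      exact hbd'

/-- the deviation is bounded -/
theorem dev_le {d : ℕ} (hd : 2 ≤ d) : ∃ K : ℝ, 0 ≤ K ∧ ∀ᶠ n : ℕ in atTop, ∀ c ∈ centres d n,
    dev d (Real.log d) n c ≤ K := by
  have hdR : (2 : ℝ) ≤ d := by exact_mod_cast hd
  have hlog : 0 < Real.log d := Real.log_pos (by linarith)
  have hA := Pool.Agent.R240.Trans.AA_one hd
  obtain ⟨K₁, hK₁⟩ : ∃ K, K = Real.log 4 + Real.log (Pool.Agent.R240.Trans.AA d) +
    Real.log (3 * d) := ⟨_, rfl⟩
  obtain ⟨K₂, hK₂⟩ : ∃ K, K = Real.log 400 + Real.log (2 * d) := ⟨_, rfl⟩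
  obtain ⟨K₃, hK₃⟩ : ∃ K, K = Real.log 12 + Real.log (256 * d ^ 2 * Pool.Agent.R240.Trans.AA d) :=
    ⟨_, rfl⟩
  have l1 : 0 ≤ K₁ := by
    have l4 : 0 < Real.log 4 := Real.log_pos (by norm_num)
    have lA : 0 ≤ Real.log (Pool.Agent.R240.Trans.AA d) := Real.log_nonneg hA
    have l3 : 0 ≤ Real.log (3 * d) := Real.log_nonneg (by linarith)
    linarith
  have l2 : 0 ≤ K₂ := by
    have l4 : 0 < Real.log 400 := Real.log_pos (by norm_num)
    have l3 : 0 ≤ Real.log (2 * d) := Real.log_nonneg (by linarith)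
    linarith
  have l3 : 0 ≤ K₃ := by
    have l4 : 0 < Real.log 12 := Real.log_pos (by norm_num)
    have hB : 1 ≤ 256 * (d : ℝ) ^ 2 * Pool.Agent.R240.Trans.AA d := by nlinarith
    have l3 : 0 ≤ Real.log (256 * (d : ℝ) ^ 2 * Pool.Agent.R240.Trans.AA d) := Real.log_nonneg hB
    linarith
  refine ⟨K₁ + K₂ + K₃ + Real.log d, by positivity, ?_⟩
  have h0 := (card_tendsto hd).eventually_const_lt one_half_lt_one
  filter_upwards [h0, eventually_ge_atTop 3] with n hn0 hn c hc
  have hn1 : 1 ≤ n := by omega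
  have hnR : (0 : ℝ) < n := by exact_mod_cast (by omega : 0 < n)
  have hP : Pool.Agent.H712R2.P d n c = 0 := Pool.Agent.N896.MB.per_zero hc
  -- another parameter of exact period `n`
  have hne : (centres d n \ {c} : Set ℂ).Nonempty := by
    have hp : (0 : ℝ) < (d : ℝ) ^ (n - 1) := by positivity
    rw [lt_div_iff₀ hp] at hn0
    have h1 : (4 : ℝ) ≤ (d : ℝ) ^ (n - 1) := by
      calc (4 : ℝ) = 2 ^ 2 := by norm_num
        _ ≤ (d : ℝ) ^ 2 := by gcongr
        _ ≤ (d : ℝ) ^ (n - 1) := pow_le_pow_right₀ (by linarith) (by omega)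
    have h2 : 1 < (Cn d n).ncard := by
      have : (1 : ℝ) < (Cn d n).ncard := by linarith
      exact_mod_cast this
    obtain ⟨b, hb, hbc⟩ := Set.exists_ne_of_one_lt_ncard h2 c
    exact ⟨b, hb, hbc⟩
  obtain ⟨b, hb, hbc⟩ := hne
  have hfin : ({b | crit d n b = 0} \ {c} : Set ℂ).Finite :=
    (Pool.Agent.N896.MB.cen_all hd hn1).subset Set.sdiff_subset
  have hfin' : (centres d n \ {c} : Set ℂ).Finite :=
    (Cn_fin hd hn1).subset Set.sdiff_subset
  have hmem : b ∈ ({b | crit d n b = 0} \ {c} : Set ℂ) := ⟨Pool.Agent.N896.MB.per_zero hb, hbc⟩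
  have hdiv : ∀ x K : ℝ, |x| ≤ K * n → 0 ≤ K → K ≤ K₁ + K₂ + K₃ →
      |x / n - Real.log d| ≤ K₁ + K₂ + K₃ + Real.log d := by
    intro x K hx _ hK
    calc |x / n - Real.log d| ≤ |x / n| + |Real.log d| := abs_sub _ _
      _ = |x| / n + Real.log d := by rw [abs_div, abs_of_pos hnR, abs_of_pos hlog]
      _ ≤ K + Real.log d := by
          gcongr
          rw [div_le_iff₀ hnR]
          exact hx
      _ ≤ _ := by linarith
  refine max_le (max_le ?_ ?_) (max_le ?_ ?_)
  · exact hdiv _ K₂ (by rw [hK₂]; exact logG_bound hd hn1 hc) l2 (by linarith)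
  · exact hdiv _ K₁ (by rw [hK₁]; exact logP_bound hd hn1 hP) l1 (by linarith)
  · obtain ⟨x, hx, hx2⟩ := infDist_fin hfin ⟨b, hmem⟩ c
    unfold gapExp
    rw [hx2]
    exact hdiv _ K₃ (by rw [hK₃, abs_neg]; exact logD_bound hd hn1 hP hx.1 hx.2) l3 (by linarith)
  · obtain ⟨x, hx, hx2⟩ := infDist_fin hfin' ⟨b, hb, hbc⟩ c
    unfold gapExp'
    rw [hx2]
    exact hdiv _ K₃ (by
      rw [hK₃, abs_neg]
      exact logD_bound hd hn1 hP (Pool.Agent.N896.MB.per_zero hx.1) hx.2) l3 (by linarith)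

theorem dev_nonneg (d : ℕ) (χ : ℝ) (n : ℕ) (c : ℂ) : 0 ≤ dev d χ n c :=
  le_trans (abs_nonneg _) ((le_max_left _ _).trans (le_max_left _ _))

theorem poly_eq (d n : ℕ) : poly d n = PZ d n := by
  induction n with
  | zero => rfl
  | succ n ih => simp only [poly, PZ, ih]

theorem result (d : ℕ) (hd : 2 ≤ d) :
    -- near the parameters `c₀` with a Lyapunov exponent `χ > 0`
    (∀ (χ : ℝ) (c₀ : ℂ), 0 < χ → c₀ ∈ N62a1eb23.multibrotSet d →
      Tendsto (fun n : ℕ => Real.log ‖deriv ((f d c₀)^[n]) c₀‖ / n) atTop (𝓝 χ) →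
      ∀ ε : ℝ, 0 < ε → ∃ δ : ℝ, 0 < δ ∧ ∀ᶠ n : ℕ in atTop, ∀ c ∈ centres d n,
        ‖c - c₀‖ ≤ Real.exp (-((χ - δ) * n)) → dev d χ n c ≤ ε) ∧
    -- most superattracting parameters
    (∀ ε : ℝ, 0 < ε → Tendsto (fun n : ℕ =>
      ({c | c ∈ centres d n ∧ dev d (Real.log d) n c ≤ ε}.ncard : ℝ) / (centres d n).ncard)
        atTop (𝓝 1)) ∧
    -- means of all orders
    (∀ p : ℝ, 0 < p →
      Tendsto (fun n : ℕ => mean d n (fun c => dev d (Real.log d) n c ^ p)) atTop (𝓝 0)) ∧
    -- the discriminants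
    Tendsto (fun n : ℕ => Real.log |((poly d (n + 1)).discr : ℝ)| /
      ((d : ℝ) ^ n * Real.log ((d : ℝ) ^ n))) atTop (𝓝 1) := by
  obtain ⟨β, hβ⟩ := Pool.Agent.H713R2.exists_beta (d := d) hd
  have hψ := Pool.Agent.H713R2.exteriorMap_of_beta hβ
  have hmost : ∀ ε : ℝ, 0 < ε → Tendsto (fun n : ℕ =>
      ({c | c ∈ Cn d n ∧ dev d (Real.log d) n c ≤ ε}.ncard : ℝ) / (Cn d n).ncard)
        atTop (𝓝 1) := by
    intro ε hε
    apply most_tendsto hd hψ (fun n c => dev d (Real.log d) n c ≤ ε)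
    filter_upwards [ae_lyap hd hψ] with θ hθ
    exact near hd hθ hε
  refine ⟨?_, hmost, ?_, ?_⟩
  · intro χ c₀ hχ hc₀ hlim ε hε
    exact near hd ⟨hχ, hc₀, hlim⟩ hε
  · intro p hp
    obtain ⟨K, hK0, hK⟩ := dev_le hd
    apply mean_tendsto hd (x := fun n c => dev d (Real.log d) n c ^ p) (K := K ^ p)
    · filter_upwards [hK] with n hn c hc
      have h1 := dev_nonneg d (Real.log d) n c
      exact ⟨Real.rpow_nonneg h1 _, Real.rpow_le_rpow h1 (hn c hc) hp.le⟩
    · intro ε hε
      have he : 0 < ε ^ (1 / p) := Real.rpow_pos_of_pos hε _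
      refine (hmost _ he).congr fun n => ?_
      congr 3
      ext c
      have h1 := dev_nonneg d (Real.log d) n c
      have h2 : dev d (Real.log d) n c ≤ ε ^ (1 / p) ↔ dev d (Real.log d) n c ^ p ≤ ε := by
        rw [one_div, Real.le_rpow_inv_iff_of_pos h1 hε.le hp]
      exact and_congr_right fun _ => h2
  · have h1 := discr_tendsto hd (by
      intro ε hε
      have hpos : ∀ n : ℕ, (({c | c ∈ Cn d n ∧ dev d (Real.log d) n c ≤ ε}.ncard : ℝ) /
          (Cn d n).ncard) ≤ ({c | c ∈ Cn d n ∧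
          |Real.log ‖deriv (Pool.Agent.H712R2.P d n) c‖ / n - Real.log d| ≤ ε}.ncard : ℝ) /
          (Cn d n).ncard ∨ n = 0 := by
        intro n
        rcases Nat.eq_zero_or_pos n with h0 | h0
        · exact Or.inr h0
        · left
          have hsub : {c | c ∈ Cn d n ∧ dev d (Real.log d) n c ≤ ε} ⊆ {c | c ∈ Cn d n ∧
              |Real.log ‖deriv (Pool.Agent.H712R2.P d n) c‖ / n - Real.log d| ≤ ε} :=
            fun c h2 => ⟨h2.1, ((le_max_right _ _).trans (le_max_left _ _)).trans h2.2⟩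
          have hfin : {c | c ∈ Cn d n ∧
              |Real.log ‖deriv (Pool.Agent.H712R2.P d n) c‖ / n - Real.log d| ≤ ε}.Finite :=
            (Cn_fin hd h0).subset fun c h2 => h2.1
          apply div_le_div_of_nonneg_right _ (Nat.cast_nonneg _)
          exact_mod_cast Set.ncard_le_ncard hsub hfin
      refine tendsto_of_tendsto_of_tendsto_of_le_of_le' (hmost ε hε) tendsto_const_nhds ?_ ?_
      · filter_upwards [eventually_ge_atTop 1] with n hn
        rcases hpos n with h | h
        · exact h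
        · omega
      · filter_upwards [eventually_ge_atTop 1] with n hn
        apply div_le_one_of_le₀ _ (Nat.cast_nonneg _)
        have hsub : {c | c ∈ Cn d n ∧
            |Real.log ‖deriv (Pool.Agent.H712R2.P d n) c‖ / n - Real.log d| ≤ ε} ⊆ Cn d n :=
          fun c h2 => h2.1
        exact_mod_cast Set.ncard_le_ncard hsub (Cn_fin hd hn))
    refine h1.congr fun n => ?_
    rw [poly_eq]

end Pool.Agent.Results.MP_af9036_an.LyapunovOfCentres
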