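import Mathlib
import Pool.Prelude.Def_F_c31e40fa
import Pool.Agent.N772.TC.Area

/-!
# Most hyperbolic components of a Multibrot set

Let `M_d` be the Multibrot set of degree `d ≥ 2` and `E = d / (d - 1)`. There are about `d ^ (n - 1)`
superattracting parameters of exact period `n`, that is, hyperbolic components of period `n`. Most of
them - a proportion which tends to one as `n → ∞` - look alike:

* **Transfer principle.** If a property `Q n c` holds, for almost every external ray, for the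
  superattracting parameters `c` of exact period `n` at distance at most `d ^ (- (1 - δ) n)` from the
  landing point of the ray (`δ > 0` depends on the ray, and `n` is large), then it holds for most
  superattracting parameters.
* So, up to factors `d ^ (± ε n)`, for most superattracting parameters `c` of exact period `n`: the
  size of the hyperbolic component, and of the component of the interior of `M_d`, about `c` is
  `d ^ (- E n)`; for ALL radii `r` between `d ^ (- (1 - ε) n)` and `1` the harmonic measure of the disc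
  `D(c, r)` is `r`, the area of `M_d`, and of its hyperbolic part, in this disc is `r ^ (2 E)`, and all
  points of `M_d` in this disc are at distance at most `r ^ E` from superattracting parameters and from
  the complement of `M_d`; the number of the superattracting parameters of exact period `n` in `D(c, r)`
  is between `d ^ n r` and `1 + d ^ n r` for all `r ≤ 1`.

The results of the starting library and `ScalingLaw` are about the components next to a fixed typical
boundary point `c₀` (for `n ≥ n₀(c₀)`); they do not say that the components of period `n` which are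
seen in this way are more than a vanishing part of all. The transfer principle is new; its proof uses
the local law of `LocalLawExactPeriods` and a covering argument of Besicovitch type with discs of many
scales and almost no loss of harmonic measure and of superattracting parameters at the boundaries
of the discs.
-/

set_option autoImplicit false

open MeasureTheory Filter Metric Topology

namespace Pool.Agent.Results.MP_c35c17_an.MostComponents

open Pool.Agent.H713R2 (IsExteriorMap)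

/-- The polynomial `z ^ d + c`. -/
def f (d : ℕ) (c : ℂ) : ℂ → ℂ := fun z => z ^ d + c

/-- The superattracting parameters of exact period `n`: the critical point `0` of `z ^ d + c` is
periodic with least period `n`. -/
def centres (d n : ℕ) : Set ℂ := {c | Function.minimalPeriod (f d c) 0 = n}

/-- The hyperbolic part of the Multibrot set: the parameters with an attracting cycle. -/
def hyperbolic (d : ℕ) : Set ℂ := {c | c ∈ N62a1eb23.multibrotSet d ∧
  ∃ (m : ℕ) (z : ℂ), N62a1eb23.IsAttractingCycle (f d c) m z}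

/-- The exponent `d / (d - 1)`. -/
noncomputable def E (d : ℕ) : ℝ := d / ((d : ℝ) - 1)

/-- The number of superattracting parameters of exact period `n` in the disc of radius `r` about
`c`. -/
noncomputable def number (d n : ℕ) (c : ℂ) (r : ℝ) : ℕ :=
  {b | b ∈ centres d n ∧ ‖b - c‖ < r}.ncard

/-- The external ray of angle `θ` lands at `ζ` (`ψ` is the exterior map). -/
def Lands (ψ : ℂ → ℂ) (θ : ℝ) (ζ : ℂ) : Prop :=
  Tendsto (fun t : ℝ => ψ (t * Complex.exp (θ * Complex.I))) (𝓝[>] 1) (𝓝 ζ)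

/-- The harmonic measure of the disc of radius `r` about `c`: the proportion of the angles
`θ ∈ (0, 2π]` whose external ray lands in the disc. -/
noncomputable def harmonic (ψ : ℂ → ℂ) (c : ℂ) (r : ℝ) : ℝ :=
  (volume {θ : ℝ | θ ∈ Set.Ioc 0 (2 * Real.pi) ∧ ∃ ζ : ℂ, ‖ζ - c‖ < r ∧ Lands ψ θ ζ}).toReal /
    (2 * Real.pi)

/-- `Q n c` holds for most superattracting parameters `c` of exact period `n`, for `n → ∞`. -/
def Most (d : ℕ) (Q : ℕ → ℂ → Prop) : Prop :=
  Tendsto (fun n : ℕ => ({c | c ∈ centres d n ∧ Q n c}.ncard : ℝ) / (centres d n).ncard) atTop (𝓝 1)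

/-- The hyperbolic component of period `n` about `c` has size `d ^ (- E n)`, up to `d ^ (± ε n)`, and
so has the component of the interior of `M_d` about `c`. -/
def Size (d : ℕ) (ε : ℝ) (n : ℕ) (c : ℂ) : Prop :=
  (∀ b : ℂ, ‖b - c‖ < (d : ℝ) ^ (-((E d + ε) * n)) →
    ∃ z : ℂ, N62a1eb23.IsAttractingCycle (f d b) n z) ∧
  ∀ γ : ℂ → ℂ, DifferentiableOn ℂ γ (ball 0 1) →
    (∀ t ∈ ball (0 : ℂ) 1, γ t ∈ N62a1eb23.multibrotSet d) → γ 0 = c →
    ‖deriv γ 0‖ ≤ (d : ℝ) ^ (-((E d - ε) * n))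

/-- The disc of radius `r` about `c`: harmonic measure `r`, area of the Multibrot set and of its
hyperbolic part `r ^ (2 E)`, and superattracting parameters and points of the complement at distance
`r ^ E` from all points of the Multibrot set in the disc, up to `d ^ (± ε n)`. -/
def Disc (d : ℕ) (ψ : ℂ → ℂ) (ε : ℝ) (n : ℕ) (c : ℂ) (r : ℝ) : Prop :=
  (d : ℝ) ^ (-(ε * n)) * r ≤ harmonic ψ c r ∧
  harmonic ψ c r ≤ (d : ℝ) ^ (ε * n) * r ∧
  (d : ℝ) ^ (-(ε * n)) * r ^ (2 * E d) ≤ (volume (hyperbolic d ∩ ball c r)).toReal ∧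
  (volume (N62a1eb23.multibrotSet d ∩ ball c r)).toReal ≤ (d : ℝ) ^ (ε * n) * r ^ (2 * E d) ∧
  ∀ b ∈ N62a1eb23.multibrotSet d, ‖b - c‖ ≤ r →
    (∃ (p : ℕ) (a : ℂ), 1 ≤ p ∧ a ∈ centres d p ∧ ‖a - b‖ ≤ (d : ℝ) ^ (ε * n) * r ^ E d) ∧
    ∃ a : ℂ, a ∉ N62a1eb23.multibrotSet d ∧ ‖a - b‖ ≤ (d : ℝ) ^ (ε * n) * r ^ E d

/-- The number of the superattracting parameters of exact period `n` in the disc of radius `r` about
`c` is between `d ^ n r` and `1 + d ^ n r`, up to `d ^ (± ε n)`. -/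
def Number (d : ℕ) (ε : ℝ) (n : ℕ) (c : ℂ) (r : ℝ) : Prop :=
  (d : ℝ) ^ n * r ≤ (d : ℝ) ^ (ε * n) * number d n c r ∧
  (number d n c r : ℝ) ≤ (d : ℝ) ^ (ε * n) * (1 + (d : ℝ) ^ n * r)

/-- The hyperbolic component of period `n` about `c` and its neighbourhood are typical. -/
def Typical (d : ℕ) (ψ : ℂ → ℂ) (ε : ℝ) (n : ℕ) (c : ℂ) : Prop :=
  Size d ε n c ∧
  (∀ r : ℝ, (d : ℝ) ^ (-((1 - ε) * n)) ≤ r → r ≤ 1 → Disc d ψ ε n c r) ∧
  ∀ r : ℝ, 0 < r → r ≤ 1 → Number d ε n c r

open Pool.Agent.N772.TC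

theorem pow_exp {d : ℕ} (hd : 2 ≤ d) (x : ℝ) (n : ℕ) :
    (d : ℝ) ^ (x * n) = Real.exp (x * Real.log d * n) := by
  have hd0 : (0 : ℝ) < d := by exact_mod_cast (by omega : 0 < d)
  rw [Real.rpow_def_of_pos hd0]
  congr 1
  ring

theorem pow_exp' {d : ℕ} (hd : 2 ≤ d) (x : ℝ) (n : ℕ) :
    (d : ℝ) ^ (-(x * n)) = Real.exp (-(x * Real.log d * n)) := by
  have hd0 : (0 : ℝ) < d := by exact_mod_cast (by omega : 0 < d)
  rw [Real.rpow_def_of_pos hd0]
  congr 1
  ring

theorem typ_near {d : ℕ} (hd : 2 ≤ d) {ψ : ℂ → ℂ} (hψ : IsExteriorMap (N62a1eb23.multibrotSet d) ψ)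
    {ε : ℝ} (hε : 0 < ε) (hε1 : ε < 1) {c₀ : ℂ}
    (h : Pool.Agent.Y298.CA.Lyap d (Real.log d) c₀) :
    ∃ δ : ℝ, 0 < δ ∧ ∀ᶠ n : ℕ in atTop, ∀ c ∈ Cn d n,
      ‖c - c₀‖ ≤ Real.exp (-((Real.log d - δ) * n)) → Typical d ψ ε n c := by
  have hpi := Real.pi_pos
  have hχ := h.1
  have hdR : (2 : ℝ) ≤ d := by exact_mod_cast hd
  have hd1 : 0 < (d : ℝ) - 1 := by linarith
  obtain ⟨e, he⟩ : ∃ e, e = ε / 2 := ⟨_, rfl⟩
  have he0 : 0 < e := by rw [he]; positivity
  have he1 : e < 1 := by linarith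
  obtain ⟨δ₁, hδ₁, -, H₁⟩ := Pool.Agent.N253.MS.size_law hd h (mul_pos hε hχ)
  obtain ⟨δ₂, hδ₂, H₂⟩ := near_harm hd hψ h he0 he1
  obtain ⟨δ₃, hδ₃, H₃⟩ := near_num hd h (mul_pos hε hχ) (by nlinarith)
  obtain ⟨δ₄, hδ₄, H₄⟩ := near_dens hd h hε hε1
  obtain ⟨δ₅, hδ₅, H₅⟩ := near_area hd h hε hε1
  obtain ⟨δ, hδ⟩ : ∃ δ, δ = min δ₁ (min δ₂ (min δ₃ (min δ₄ δ₅))) := ⟨_, rfl⟩
  have h1 : δ ≤ δ₁ := by rw [hδ]; exact min_le_left _ _
  have h2 : δ ≤ δ₂ := by rw [hδ]; exact (min_le_right _ _).trans (min_le_left _ _)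
  have h3 : δ ≤ δ₃ := by
    rw [hδ]; exact (min_le_right _ _).trans ((min_le_right _ _).trans (min_le_left _ _))
  have h4 : δ ≤ δ₄ := by
    rw [hδ]; exact (min_le_right _ _).trans ((min_le_right _ _).trans ((min_le_right _ _).trans
      (min_le_left _ _)))
  have h5 : δ ≤ δ₅ := by
    rw [hδ]; exact (min_le_right _ _).trans ((min_le_right _ _).trans ((min_le_right _ _).trans
      (min_le_right _ _)))
  have hδ0 : 0 < δ := by
    rw [hδ]; exact lt_min hδ₁ (lt_min hδ₂ (lt_min hδ₃ (lt_min hδ₄ hδ₅)))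
  refine ⟨δ, hδ0, ?_⟩
  have hpos : 0 < e * Real.log d := mul_pos he0 hχ
  filter_upwards [H₁, H₂, H₃, H₄, H₅, ev_lin hpos (Real.log (2 * Real.pi))]
    with n hn1 hn2 hn3 hn4 hn5 hn6 c hc hcc
  have hn0 : (0 : ℝ) ≤ n := Nat.cast_nonneg n
  have hup : ∀ x : ℝ, δ ≤ x → ‖c - c₀‖ ≤ Real.exp (-((Real.log d - x) * n)) := by
    intro x hx
    refine hcc.trans (Real.exp_le_exp.2 ?_)
    have : (Real.log d - x) * n ≤ (Real.log d - δ) * n := by gcongr
    linarith
  have hP := Pool.Agent.N896.MB.per_zero hc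
  obtain ⟨ha, hb⟩ := hn1 c hP (hup _ h1)
  refine ⟨⟨?_, ?_⟩, ?_, ?_⟩
  · intro b hbc
    apply ha b
    rw [mem_ball, dist_eq_norm]
    refine hbc.trans_le (le_of_eq ?_)
    rw [pow_exp' hd]
    congr 1
    unfold E
    ring
  · intro γ hγ1 hγ2 hγ3
    refine (hb γ hγ1 hγ2 hγ3).trans (le_of_eq ?_)
    rw [pow_exp' hd]
    congr 1
    unfold E
    ring
  · intro r hr1 hr2
    rw [pow_exp' hd] at hr1
    have hr0 : 0 < r := (Real.exp_pos _).trans_le hr1
    have hr1' : Real.exp (-((1 - e) * Real.log d * n)) ≤ r := by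
      refine le_trans (Real.exp_le_exp.2 ?_) hr1
      have : (1 - ε) * Real.log d * n ≤ (1 - e) * Real.log d * n := by
        gcongr
        linarith
      linarith
    obtain ⟨h6, h7⟩ := hn2 c (hup _ h2) r hr1' hr2
    obtain ⟨h8, h9⟩ := hn5 c (hup _ h5) r hr1 hr2
    have hharm : harmonic ψ c r = (volume (Pool.Agent.Y736.HD.Ang ψ c r)).toReal / (2 * Real.pi) := by
      unfold harmonic Pool.Agent.Y736.HD.Ang Lands
      simp only [mem_ball, dist_eq_norm]
    have hE2 : 2 * E d = 2 * d / ((d : ℝ) - 1) := by unfold E; ring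
    have hHH : hyperbolic d = Pool.Agent.Y298.CA.HH d := rfl
    have hpe : 2 * Real.pi ≤ Real.exp (e * Real.log d * n) := by
      rw [← Real.exp_log (show 0 < 2 * Real.pi by positivity)]
      exact Real.exp_le_exp.2 hn6.le
    unfold Disc
    rw [pow_exp hd, pow_exp' hd, hE2, hHH]
    refine ⟨?_, ?_, h8, h9, ?_⟩
    · rw [hharm, le_div_iff₀ (by positivity)]
      refine le_trans ?_ h6
      calc Real.exp (-(ε * Real.log d * n)) * r * (2 * Real.pi) ≤
          Real.exp (-(ε * Real.log d * n)) * r * Real.exp (e * Real.log d * n) := by gcongr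
        _ = (Real.exp (-(ε * Real.log d * n)) * Real.exp (e * Real.log d * n)) * r := by ring
        _ = _ := by rw [← Real.exp_add, he]; congr 2; ring
    · rw [hharm, div_le_iff₀ (by positivity)]
      refine h7.trans ?_
      have h10 : (1 : ℝ) ≤ 2 * Real.pi := by linarith [Real.pi_gt_three]
      calc Real.exp (e * Real.log d * n) * r ≤ Real.exp (ε * Real.log d * n) * r * 1 := by
            rw [mul_one]
            have : e ≤ ε := by linarith
            gcongr
        _ ≤ _ := by gcongr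
    · intro b hb hbc
      obtain ⟨⟨p, hp, a, h10, h11⟩, a', h12, h13⟩ := hn4 c (hup _ h4) r hr1 hr2 b hb hbc
      exact ⟨⟨p, a, hp, h10, h11⟩, a', h12, h13⟩
  · intro r hr1 hr2
    obtain ⟨h6, h7⟩ := hn3 c hc (hup _ h3) r hr1 hr2
    have hnum : number d n c r = (Cn d n ∩ ball c r).ncard := by
      unfold number
      congr 1
      ext b
      constructor
      · rintro ⟨h1, h2⟩
        exact ⟨h1, by rwa [mem_ball, dist_eq_norm]⟩
      · rintro ⟨h1, h2⟩
        exact ⟨h1, by rwa [mem_ball, dist_eq_norm] at h2⟩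
    unfold Number
    rw [pow_exp hd, hnum]
    exact ⟨h6, h7⟩

/-- smaller `ε` -/
theorem typ_mono {d : ℕ} (hd : 2 ≤ d) {ψ : ℂ → ℂ} {ε ε' : ℝ} (hε : ε ≤ ε') {n : ℕ} {c : ℂ}
    (h : Typical d ψ ε n c) : Typical d ψ ε' n c := by
  have hdR : (1 : ℝ) ≤ d := by exact_mod_cast (by omega : 1 ≤ d)
  have hn0 : (0 : ℝ) ≤ n := Nat.cast_nonneg n
  have h1 : (d : ℝ) ^ (ε * n) ≤ (d : ℝ) ^ (ε' * n) :=
    Real.rpow_le_rpow_of_exponent_le hdR (by gcongr)
  have h2 : (d : ℝ) ^ (-(ε' * n)) ≤ (d : ℝ) ^ (-(ε * n)) :=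
    Real.rpow_le_rpow_of_exponent_le hdR (by gcongr)
  obtain ⟨⟨ha, hb⟩, hc, he⟩ := h
  refine ⟨⟨?_, ?_⟩, ?_, ?_⟩
  · intro b hbc
    refine ha b (hbc.trans_le (Real.rpow_le_rpow_of_exponent_le hdR ?_))
    gcongr
  · intro γ g1 g2 g3
    refine (hb γ g1 g2 g3).trans (Real.rpow_le_rpow_of_exponent_le hdR ?_)
    gcongr
  · intro r hr1 hr2
    have hr3 : (d : ℝ) ^ (-((1 - ε) * n)) ≤ r := by
      refine le_trans (Real.rpow_le_rpow_of_exponent_le hdR ?_) hr1
      gcongr
    have hr0 : 0 < r := lt_of_lt_of_le (by positivity) hr3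
    obtain ⟨c1, c2, c3, c4, c5⟩ := hc r hr3 hr2
    refine ⟨le_trans (by gcongr) c1, c2.trans (by gcongr), le_trans (by gcongr) c3,
      c4.trans (by gcongr), ?_⟩
    intro b hb hbc
    obtain ⟨⟨p, a, h3, h4, h5⟩, a', h6, h7⟩ := c5 b hb hbc
    exact ⟨⟨p, a, h3, h4, h5.trans (by gcongr)⟩, a', h6, h7.trans (by gcongr)⟩
  · intro r hr1 hr2
    obtain ⟨e1, e2⟩ := he r hr1 hr2
    exact ⟨e1.trans (by gcongr), e2.trans (by gcongr)⟩

theorem result (d : ℕ) (hd : 2 ≤ d) :
    -- the number of the superattracting parameters of exact period `n`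
    Tendsto (fun n : ℕ => ((centres d n).ncard : ℝ) / (d : ℝ) ^ (n - 1)) atTop (𝓝 1) ∧
    (∃ ψ : ℂ → ℂ, IsExteriorMap (N62a1eb23.multibrotSet d) ψ) ∧
    ∀ ψ : ℂ → ℂ, IsExteriorMap (N62a1eb23.multibrotSet d) ψ →
      -- the transfer principle
      (∀ Q : ℕ → ℂ → Prop, (∀ᵐ θ : ℝ, ∃ (c₀ : ℂ) (δ : ℝ), Lands ψ θ c₀ ∧ 0 < δ ∧
          ∀ᶠ n : ℕ in atTop, ∀ c ∈ centres d n, ‖c - c₀‖ ≤ (d : ℝ) ^ (-((1 - δ) * n)) → Q n c) →
        Most d Q) ∧
      -- most hyperbolic components
      ∀ ε : ℝ, 0 < ε → Most d (Typical d ψ ε) := by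
  have hχ : 0 < Real.log d := Real.log_pos (by exact_mod_cast (by omega : 1 < d))
  refine ⟨card_tendsto hd, ?_, ?_⟩
  · obtain ⟨β, hβ⟩ := Pool.Agent.H713R2.exists_beta (d := d) hd
    exact ⟨_, Pool.Agent.H713R2.exteriorMap_of_beta hβ⟩
  intro ψ hψ
  constructor
  · intro Q hQ
    apply most_tendsto hd hψ Q
    filter_upwards [hQ] with θ hθ
    obtain ⟨c₀, δ, h1, h2, h3⟩ := hθ
    refine ⟨δ * Real.log d, by positivity, ?_⟩
    filter_upwards [h3] with n hn c hc hcc
    apply hn c hc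
    rw [bd_eq h1] at hcc
    refine hcc.trans (le_of_eq ?_)
    rw [pow_exp' hd]
    congr 1
    ring
  · intro ε hε
    apply most_tendsto hd hψ (Typical d ψ ε)
    have he0 : 0 < min ε (1 / 2) := lt_min hε (by norm_num)
    have he1 : min ε (1 / 2) < 1 := (min_le_right _ _).trans_lt (by norm_num)
    filter_upwards [ae_lyap hd hψ] with θ hθ
    obtain ⟨δ, hδ, H⟩ := typ_near hd hψ he0 he1 hθ
    refine ⟨δ, hδ, ?_⟩
    filter_upwards [H] with n hn c hc hcc
    exact typ_mono hd (min_le_left _ _) (hn c hc hcc)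

end Pool.Agent.Results.MP_c35c17_an.MostComponents
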